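import Pool.Agent.helper5.PR.SpecK

/-!
# Module pr:K-QNR
-/

set_option autoImplicit false

namespace Pool.Agent.PR

open Matrix

theorem K_QNR (hNR : K_NR_stmt) : K_QNR_stmt := by
  intro f hm hirr hdeg N hN
  obtain ⟨b, hb⟩ : ∃ b, b = f.coeff 1 := ⟨_, rfl⟩
  obtain ⟨c, hc⟩ : ∃ c, c = f.coeff 0 := ⟨_, rfl⟩
  have hlead : f.coeff 2 = 1 := by
    have := hm.coeff_natDegree
    rwa [hdeg] at this
  obtain ⟨Δ, hΔ⟩ : ∃ Δ : ℚ, Δ = b ^ 2 - 4 * c := ⟨_, rfl⟩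
  have hden : (Δ.den : ℚ) ≠ 0 := by exact_mod_cast Δ.den_nz
  have hD : ((Δ.num * Δ.den : ℤ) : ℚ) = Δ * (Δ.den : ℚ) ^ 2 := by
    push_cast
    rw [← Rat.mul_den_eq_num]
    ring
  have hns : ¬ IsSquare (Δ.num * Δ.den : ℤ) := by
    rintro ⟨m, hm'⟩
    have h1 : Δ * (Δ.den : ℚ) ^ 2 = m * m := by
      rw [← hD, hm']
      push_cast
      ring
    have h2 : ((m : ℚ) / Δ.den) ^ 2 = Δ := by
      rw [div_pow, div_eq_iff (pow_ne_zero 2 hden), h1]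
      ring
    have hx : f.IsRoot ((-b + m / Δ.den) / 2) := by
      rw [Polynomial.IsRoot, Polynomial.eval_eq_sum_range, hdeg]
      simp only [Finset.sum_range_succ, Finset.sum_range_zero]
      rw [hlead, ← hb, ← hc]
      linear_combination (1 / 4 : ℚ) * h2 + (1 / 4 : ℚ) * hΔ
    have h3 := Polynomial.degree_eq_one_of_irreducible_of_root hirr hx
    rw [Polynomial.degree_eq_natDegree hm.ne_zero, hdeg] at h3
    exact absurd h3 (by decide)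
  obtain ⟨ℓ, hℓ, _, hN', hsq⟩ := hNR _ hns N hN
  refine ⟨ℓ, hℓ, hN', ?_⟩
  have : Fact ℓ.Prime := ⟨hℓ⟩
  have hdeg0 : f.degree ≠ 0 := by
    rw [Polynomial.degree_eq_natDegree hm.ne_zero, hdeg]
    decide
  obtain ⟨γ, hγ⟩ := IsAlgClosed.exists_aeval_eq_zero (Om ℓ) f hdeg0
  refine ⟨γ, hγ, ?_⟩
  rintro ⟨g, rfl⟩
  apply hsq
  have hg : g ^ 2 + (b : ℚ_[ℓ]) * g + (c : ℚ_[ℓ]) = 0 := by
    apply (algebraMap ℚ_[ℓ] (Om ℓ)).injective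
    rw [map_zero, ← hγ, Polynomial.aeval_eq_sum_range, hdeg]
    simp only [Finset.sum_range_succ, Finset.sum_range_zero, Algebra.smul_def, hlead, ← hb, ← hc,
      map_add, map_mul, map_pow, map_ratCast, eq_ratCast]
    ring
  have hD' : ((Δ.num * Δ.den : ℤ) : ℚ_[ℓ]) = ((2 * g + b) * Δ.den) ^ 2 := by
    have e1 : (((Δ.num * Δ.den : ℤ) : ℚ) : ℚ_[ℓ]) = ((Δ * (Δ.den : ℚ) ^ 2 : ℚ) : ℚ_[ℓ]) := by
      rw [hD]
    have e2 : ((Δ : ℚ) : ℚ_[ℓ]) = (b : ℚ_[ℓ]) ^ 2 - 4 * (c : ℚ_[ℓ]) := by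
      rw [hΔ]
      push_cast
      ring
    rw [Rat.cast_intCast] at e1
    rw [e1]
    push_cast
    rw [e2]
    linear_combination (-4 * (Δ.den : ℚ_[ℓ]) ^ 2) * hg
  have hnorm : ‖(2 * g + b) * (Δ.den : ℚ_[ℓ])‖ ≤ 1 := by
    have h1 : ‖((Δ.num * Δ.den : ℤ) : ℚ_[ℓ])‖ ≤ 1 := by
      have h := PadicInt.norm_le_one ((Δ.num * Δ.den : ℤ) : ℤ_[ℓ])
      rwa [PadicInt.norm_def, PadicInt.coe_intCast] at h
    rw [hD', norm_pow] at h1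
    have h0 := norm_nonneg ((2 * g + b) * (Δ.den : ℚ_[ℓ]))
    nlinarith
  obtain ⟨y, hy⟩ : ∃ y : ℤ_[ℓ], (y : ℚ_[ℓ]) = (2 * g + b) * (Δ.den : ℚ_[ℓ]) := ⟨⟨_, hnorm⟩, rfl⟩
  refine ⟨PadicInt.toZMod y, ?_⟩
  rw [← map_mul]
  have h5 : ((Δ.num * Δ.den : ℤ) : ℤ_[ℓ]) = y * y := by
    apply Subtype.ext
    rw [PadicInt.coe_mul, PadicInt.coe_intCast, hD', hy]
    ring
  rw [← h5, map_intCast]

end Pool.Agent.PR
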