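import Pool.Agent.helper17.PR.SpecN

/-!
# Module pr:N_EXP
-/

set_option autoImplicit false

namespace Pool.Agent.PR

open scoped commutatorElement

theorem N_EXP_pow {Q : Type} [Group Q] {x g h : Q} (h1 : x * g = h * g * x) (h2 : Commute h x)
    (k : ℕ) : x ^ k * g = h ^ k * g * x ^ k := by
  induction k with
  | zero => simp
  | succ k ih =>
    have e1 : x * h ^ k = h ^ k * x := ((h2.symm).pow_right k).eq
    calc x ^ (k + 1) * g = x * (x ^ k * g) := by rw [pow_succ', mul_assoc]
      _ = x * (h ^ k * g * x ^ k) := by rw [ih]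
      _ = (x * h ^ k) * g * x ^ k := by simp only [mul_assoc]
      _ = h ^ k * (x * g) * x ^ k := by rw [e1]; simp only [mul_assoc]
      _ = h ^ k * (h * g * x) * x ^ k := by rw [h1]
      _ = h ^ (k + 1) * g * x ^ (k + 1) := by
        rw [pow_succ h, pow_succ' x]
        simp only [mul_assoc]

/-- the case of the trivial subgroup -/
theorem N_EXP_step {Q : Type} [Group Q] (d : ℕ) (hd : ∀ z ∈ Subgroup.center Q, z ^ d = 1) :
    ∀ (i : ℕ) (x : Q), x ∈ Subgroup.upperCentralSeries Q (i + 1) →
      x ^ d ∈ Subgroup.upperCentralSeries Q i := by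
  intro i
  induction i with
  | zero =>
    intro x hx
    rw [zero_add, Subgroup.upperCentralSeries_one] at hx
    rw [hd x hx]
    exact Subgroup.one_mem _
  | succ i ih =>
    intro x hx
    rw [Subgroup.mem_upperCentralSeries_succ_iff]
    intro g
    have hh : ⁅x, g⁆ ∈ Subgroup.upperCentralSeries Q (i + 1) :=
      Subgroup.mem_upperCentralSeries_succ_iff.1 hx g
    have hc : ∀ y : Q, Commute (QuotientGroup.mk' (Subgroup.upperCentralSeries Q i) ⁅x, g⁆)
        (QuotientGroup.mk' (Subgroup.upperCentralSeries Q i) y) := by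
      intro y
      have h := Subgroup.mem_upperCentralSeries_succ_iff.1 hh y
      rw [← QuotientGroup.ker_mk' (Subgroup.upperCentralSeries Q i), MonoidHom.mem_ker,
        map_commutatorElement, commutatorElement_eq_one_iff_commute] at h
      exact h
    have h1 : QuotientGroup.mk' (Subgroup.upperCentralSeries Q i) x *
        QuotientGroup.mk' (Subgroup.upperCentralSeries Q i) g =
        QuotientGroup.mk' (Subgroup.upperCentralSeries Q i) ⁅x, g⁆ *
        QuotientGroup.mk' (Subgroup.upperCentralSeries Q i) g *
        QuotientGroup.mk' (Subgroup.upperCentralSeries Q i) x := by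
      rw [← map_mul, ← map_mul, ← map_mul]
      congr 1
      rw [commutatorElement_def]
      group
    have h2 := N_EXP_pow h1 (hc x) d
    have h3 : (QuotientGroup.mk' (Subgroup.upperCentralSeries Q i) ⁅x, g⁆) ^ d = 1 := by
      rw [← map_pow, ← MonoidHom.mem_ker, QuotientGroup.ker_mk']
      exact ih _ hh
    rw [h3, one_mul] at h2
    rw [← QuotientGroup.ker_mk' (Subgroup.upperCentralSeries Q i), MonoidHom.mem_ker,
      map_commutatorElement, commutatorElement_eq_one_iff_mul_comm, map_pow]
    exact h2

theorem N_EXP : N_EXP_stmt := by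
  intro P _ c hc S hS d hd g
  have htop : Subgroup.upperCentralSeries (P ⧸ S) c = ⊤ := by
    have h := Subgroup.upperCentralSeries.map (f := QuotientGroup.mk' S)
      (QuotientGroup.mk'_surjective S) c
    rw [hc, Subgroup.map_top_of_surjective _ (QuotientGroup.mk'_surjective S)] at h
    exact top_le_iff.1 h
  have hcen : ∀ z ∈ Subgroup.center (P ⧸ S), z ^ d = 1 := by
    intro z hz
    obtain ⟨x, rfl⟩ := QuotientGroup.mk'_surjective S z
    rw [← map_pow, ← MonoidHom.mem_ker, QuotientGroup.ker_mk']
    refine hd x fun y => ?_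
    rw [← QuotientGroup.ker_mk' S, MonoidHom.mem_ker]
    have h := Subgroup.mem_center_iff.1 hz (QuotientGroup.mk' S y)
    rw [map_mul, map_mul, map_mul, map_inv, map_inv, ← h]
    group
  have key : ∀ (j : ℕ) (x : P ⧸ S), x ∈ Subgroup.upperCentralSeries (P ⧸ S) j →
      x ^ d ^ j = 1 := by
    intro j
    induction j with
    | zero =>
      intro x hx
      rw [Subgroup.upperCentralSeries_zero, Subgroup.mem_bot] at hx
      rw [hx, one_pow]
    | succ j ih =>
      intro x hx
      rw [pow_succ', pow_mul]
      exact ih _ (N_EXP_step d hcen j x hx)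
  have h := key c (QuotientGroup.mk' S g) (by rw [htop]; exact Subgroup.mem_top _)
  rw [← map_pow, ← MonoidHom.mem_ker, QuotientGroup.ker_mk'] at h
  exact h

end Pool.Agent.PR
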