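import Pool.Agent.helper17.PR.SpecN

/-!
# Module pr:N_RES
-/

set_option autoImplicit false

namespace Pool.Agent.PR

open Module

theorem N_RES_sub {K V Q : Type} [Field K] [AddCommGroup V] [Module K V] [Group Q]
    (ρ : Q →* Module.End K V) (W : Submodule K V) (hW : InvS ρ W) (hT : TriS ρ) :
    TriS (resS ρ W hW) := by
  intro A B hA hB hAB
  have hinv : ∀ C : Submodule K W, InvS (resS ρ W hW) C → InvS ρ (C.map W.subtype) := by
    intro C hC g w hw
    obtain ⟨c, hc, rfl⟩ := Submodule.mem_map.1 hw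
    exact Submodule.mem_map.2 ⟨resS ρ W hW g c, hC g c hc, rfl⟩
  have hlt : A.map W.subtype < B.map W.subtype := by
    refine lt_of_le_of_ne (Submodule.map_mono hAB.le) fun h => hAB.ne ?_
    exact Submodule.map_injective_of_injective W.injective_subtype h
  obtain ⟨v, hv, hvA, hg⟩ := hT _ _ (hinv A hA) (hinv B hB) hlt
  obtain ⟨b, hb, rfl⟩ := Submodule.mem_map.1 hv
  refine ⟨b, hb, fun h => hvA (Submodule.mem_map_of_mem h), fun g => ?_⟩
  obtain ⟨c, hc⟩ := hg g
  refine ⟨c, ?_⟩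
  obtain ⟨a, ha, he⟩ := Submodule.mem_map.1 hc
  have e : a = resS ρ W hW g b - c • b := by
    apply W.injective_subtype
    rw [he]
    rfl
  rw [← e]
  exact ha

theorem N_RES_quo {K V Q : Type} [Field K] [AddCommGroup V] [Module K V] [Group Q]
    (ρ : Q →* Module.End K V) (W : Submodule K V) (hW : InvS ρ W) (hT : TriS ρ) :
    TriS (quoS ρ W hW) := by
  intro A B hA hB hAB
  have hinv : ∀ C : Submodule K (V ⧸ W), InvS (quoS ρ W hW) C → InvS ρ (C.comap W.mkQ) := by
    intro C hC g w hw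
    exact hC g (W.mkQ w) hw
  have hlt : A.comap W.mkQ < B.comap W.mkQ := by
    refine lt_of_le_of_ne (Submodule.comap_mono hAB.le) fun h => hAB.ne ?_
    exact Submodule.comap_injective_of_surjective W.mkQ_surjective h
  obtain ⟨v, hv, hvA, hg⟩ := hT _ _ (hinv A hA) (hinv B hB) hlt
  refine ⟨W.mkQ v, hv, hvA, fun g => ?_⟩
  obtain ⟨c, hc⟩ := hg g
  exact ⟨c, hc⟩

theorem N_RES : N_RES_stmt := by
  intro K V Q _ _ _ _ ρ W hW hT
  exact ⟨N_RES_sub ρ W hW hT, N_RES_quo ρ W hW hT⟩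

end Pool.Agent.PR
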